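import Pool.Agent.H492R3.KL3

/-!
Chains of subgroups inside a family of semiregular permutation groups.
-/

open Cardinal Set

namespace Pool.Agent.Y364.KP

open Pool.Agent.H492R3.KL (RankFn exists_rankFn KK KK_mono mem_KK_of_lt mk_KK_le le_mk_KK
  exists_lt_mem_KK exists_sdr exists_sdr_comp mk_closure_le)

universe u v

variable {X : Type u} {J : Type u}

/-- only the identity has a fixed point -/
def SemiReg (S : Subgroup (Equiv.Perm X)) : Prop := ∀ g ∈ S, ∀ x : X, g x = x → g = 1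

/-- the orbit of a point -/
def Orb (P : Subgroup (Equiv.Perm X)) (x : X) : Set X := {y | ∃ p ∈ P, p x = y}

theorem Orb_self (P : Subgroup (Equiv.Perm X)) (x : X) : x ∈ Orb P x := ⟨1, P.one_mem, rfl⟩

theorem Orb_symm {P : Subgroup (Equiv.Perm X)} {x y : X} (h : y ∈ Orb P x) : x ∈ Orb P y := by
  obtain ⟨p, hp, rfl⟩ := h
  exact ⟨p⁻¹, P.inv_mem hp, by simp⟩

theorem Orb_trans {P : Subgroup (Equiv.Perm X)} {x y z : X} (h : y ∈ Orb P x)
    (h' : z ∈ Orb P y) : z ∈ Orb P x := by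
  obtain ⟨p, hp, rfl⟩ := h
  obtain ⟨q, hq, rfl⟩ := h'
  exact ⟨q * p, P.mul_mem hq hp, rfl⟩

theorem Orb_eq {P : Subgroup (Equiv.Perm X)} {x y : X} (h : y ∈ Orb P x) : Orb P y = Orb P x := by
  ext z
  exact ⟨fun hz => Orb_trans h hz, fun hz => Orb_trans (Orb_symm h) hz⟩

theorem Orb_mono {P Q : Subgroup (Equiv.Perm X)} (h : P ≤ Q) (x : X) : Orb P x ⊆ Orb Q x := by
  rintro y ⟨p, hp, rfl⟩
  exact ⟨p, h hp, rfl⟩

theorem mem_Orb_of_eq {P : Subgroup (Equiv.Perm X)} {x y : X} (h : Orb P y = Orb P x) :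
    y ∈ Orb P x := by
  rw [← h]; exact Orb_self P y

theorem mk_Orb_le (P : Subgroup (Equiv.Perm X)) (x : X) : #(Orb P x) ≤ #P := by
  have hsub : Orb P x ⊆ Set.range (fun p : P => (p : Equiv.Perm X) x) := by
    rintro y ⟨p, hp, rfl⟩
    exact ⟨⟨p, hp⟩, rfl⟩
  exact (Cardinal.mk_le_mk_of_subset hsub).trans Cardinal.mk_range_le

theorem mk_Orb_eq {P S : Subgroup (Equiv.Perm X)} (hP : P ≤ S) (hS : SemiReg S) (x : X) :
    #(Orb P x) = #P := by
  apply le_antisymm (mk_Orb_le P x)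
  refine Cardinal.mk_le_of_injective (f := fun p : P => (⟨(p : Equiv.Perm X) x, p, p.2, rfl⟩ :
    Orb P x)) ?_
  intro p q h
  have h1 : (p : Equiv.Perm X) x = (q : Equiv.Perm X) x := congrArg Subtype.val h
  have h2 : ((q⁻¹ * p : P) : Equiv.Perm X) x = x := by
    change (q : Equiv.Perm X)⁻¹ ((p : Equiv.Perm X) x) = x
    rw [h1]; simp
  have h3 := hS _ (hP (q⁻¹ * p).2) x h2
  have h4 : q⁻¹ * p = 1 := Subtype.ext h3
  exact (inv_mul_eq_one.mp h4).symm

variable {S : J → Subgroup (Equiv.Perm X)} {rk : ∀ j, S j → Ordinal.{u}}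

/-- the `o`-th subgroup in the chain of `S j`, as a group of permutations -/
def RR (S : J → Subgroup (Equiv.Perm X)) (rk : ∀ j, S j → Ordinal.{u}) (j : J)
    (o : Ordinal.{u}) : Subgroup (Equiv.Perm X) := (KK (rk j) o).map (S j).subtype

/-- the group generated by all of them -/
def PP (S : J → Subgroup (Equiv.Perm X)) (rk : ∀ j, S j → Ordinal.{u})
    (o : Ordinal.{u}) : Subgroup (Equiv.Perm X) := ⨆ j, RR S rk j o

theorem RR_mono {j : J} {o o' : Ordinal.{u}} (h : o ≤ o') : RR S rk j o ≤ RR S rk j o' :=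
  Subgroup.map_mono (KK_mono h)

theorem RR_le_S (j : J) (o : Ordinal.{u}) : RR S rk j o ≤ S j := by
  rintro p ⟨g, _, rfl⟩
  exact g.2

theorem RR_le_PP (j : J) (o : Ordinal.{u}) : RR S rk j o ≤ PP S rk o := le_iSup (fun j => RR S rk j o) j

theorem PP_mono {o o' : Ordinal.{u}} (h : o ≤ o') : PP S rk o ≤ PP S rk o' :=
  iSup_mono fun _ => RR_mono h

theorem mk_RR (j : J) (o : Ordinal.{u}) : #(RR S rk j o) = #(KK (rk j) o) :=
  (Cardinal.mk_congr ((KK (rk j) o).equivMapOfInjective (S j).subtype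
    (S j).subtype_injective).toEquiv).symm

theorem mk_PP_le (hc : ∀ j, #(S j) = #X) (hrk : ∀ j, RankFn (rk j)) {μ : Cardinal.{u}}
    (hJ : #J ≤ μ) (hμ : ℵ₀ ≤ μ) {o : Ordinal.{u}} (ho : o ≤ (#X).ord) (ho' : o.card ≤ μ) :
    #(PP S rk o) ≤ μ := by
  unfold PP
  rw [Subgroup.iSup_eq_closure]
  refine (mk_closure_le _).trans (max_le ?_ hμ)
  refine (Cardinal.mk_iUnion_le _).trans (Cardinal.mul_le_of_le hμ hJ (ciSup_le' ?_))
  intro j
  change #(RR S rk j o) ≤ μ
  rw [mk_RR]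
  refine (mk_KK_le (hrk j) (by rw [hc j]; exact ho)).trans (max_le ho' hμ)

theorem mem_RR_of_lt {j : J} {g : S j} {o : Ordinal.{u}} (h : rk j g < o) :
    (g : Equiv.Perm X) ∈ RR S rk j o := ⟨g, mem_KK_of_lt h, rfl⟩

/-- A rank function for which a given small set comes first. -/
theorem exists_rankFn_first {G : Type u} [Group G] (hG : ℵ₀ ≤ #G) (F : Set G) {μ : Cardinal.{u}}
    (hF : #F ≤ μ) (hμ : μ < #G) : ∃ rk : G → Ordinal.{u}, RankFn rk ∧ ∀ g ∈ F, rk g < μ.ord := by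
  obtain ⟨rk, hrk⟩ := exists_rankFn (G := G)
  have h0 : #{g // rk g < μ.ord} = μ := by
    rw [hrk.card _ (Cardinal.ord_le_ord.mpr hμ.le), Cardinal.card_ord]
  have h1 : Nonempty (F ↪ {g // rk g < μ.ord}) := by
    rw [← Cardinal.le_def, h0]; exact hF
  obtain ⟨f⟩ := h1
  have : Infinite G := Cardinal.infinite_iff.mpr hG
  obtain ⟨e, he⟩ := Cardinal.extend_function_of_lt (s := F)
    (f.trans (Function.Embedding.subtype _)) (hF.trans_lt hμ) ⟨Equiv.refl G⟩
  refine ⟨fun g => rk (e g), ⟨?_, ?_, ?_⟩, ?_⟩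
  · intro a b h
    exact e.injective (hrk.inj h)
  · intro g
    exact hrk.lt _
  · intro o ho
    rw [← hrk.card o ho]
    exact Cardinal.mk_congr (e.subtypeEquiv (fun a => Iff.rfl))
  · intro g hg
    have := he ⟨g, hg⟩
    simp only at this
    change rk (e g) < _
    rw [this]
    exact (f ⟨g, hg⟩).2

/-- From a disjoint family of subsets of `A` to a family with union `A`. -/
theorem exists_partition_of_family [Nonempty X] (A : Set X) (B : X → Set X) (hBA : ∀ i, B i ⊆ A)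
    (hdisj : ∀ i j, i ≠ j → Disjoint (B i) (B j)) (hne : ∀ i, (B i).Nonempty)
    (P : Set X → Prop) (hmono : ∀ s t, s ⊆ t → P s → P t) (hP : ∀ i, P (B i)) :
    ∃ c : Set (Set X), c.PairwiseDisjoint id ∧ ⋃₀ c = A ∧ #c = #X ∧
      ∀ s ∈ c, s.Nonempty ∧ P s := by
  classical
  obtain ⟨i0⟩ : Nonempty X := inferInstance
  let C : X → Set X := fun i => if i = i0 then B i0 ∪ (A \ ⋃ j, B j) else B i
  have hBC : ∀ i, B i ⊆ C i := by
    intro i
    by_cases h : i = i0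
    · subst h; simp [C]
    · simp [C, h]
  have hC0 : C i0 = B i0 ∪ (A \ ⋃ j, B j) := by simp [C]
  have hCi : ∀ i, i ≠ i0 → C i = B i := by intro i hi; simp [C, hi]
  have hd0 : ∀ i, i ≠ i0 → Disjoint (C i0) (C i) := by
    intro i hi
    rw [hC0, hCi i hi, Set.disjoint_union_left]
    refine ⟨hdisj _ _ (Ne.symm hi), ?_⟩
    rw [Set.disjoint_left]
    intro x hx hx'
    exact hx.2 (Set.mem_iUnion.mpr ⟨i, hx'⟩)
  have hd : ∀ i j, i ≠ j → Disjoint (C i) (C j) := by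
    intro i j hij
    by_cases hi : i = i0
    · subst hi
      exact hd0 j (Ne.symm hij)
    · by_cases hj : j = i0
      · subst hj
        exact (hd0 i hi).symm
      · rw [hCi i hi, hCi j hj]
        exact hdisj i j hij
  have hCne : ∀ i, (C i).Nonempty := fun i => (hne i).mono (hBC i)
  have hCinj : Function.Injective C := by
    intro i j hij
    by_contra hne'
    have h1 := hd i j hne'
    rw [hij, disjoint_self, Set.bot_eq_empty] at h1
    exact (hCne j).ne_empty h1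
  refine ⟨Set.range C, ?_, ?_, ?_, ?_⟩
  · rintro _ ⟨i, rfl⟩ _ ⟨j, rfl⟩ hij
    exact hd i j (fun h => hij (by rw [h]))
  · apply Set.Subset.antisymm
    · rintro x ⟨_, ⟨i, rfl⟩, hx⟩
      by_cases hi : i = i0
      · rw [hi, hC0] at hx
        rcases hx with hx | hx
        · exact hBA _ hx
        · exact hx.1
      · rw [hCi i hi] at hx
        exact hBA _ hx
    · intro x hx
      by_cases h : x ∈ ⋃ j, B j
      · obtain ⟨j, hj⟩ := Set.mem_iUnion.mp h
        exact ⟨C j, ⟨j, rfl⟩, hBC j hj⟩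
      · exact ⟨C i0, ⟨i0, rfl⟩, by rw [hC0]; exact Or.inr ⟨hx, h⟩⟩
  · exact Cardinal.mk_range_eq C hCinj
  · rintro _ ⟨i, rfl⟩
    exact ⟨hCne i, hmono _ _ (hBC i) (hP i)⟩

/-- fewer than `κ` elements of `T` suffice to move any point into `B` -/
def Lg (κ : Cardinal.{u}) (T : Subgroup (Equiv.Perm X)) (B : Set X) : Prop :=
  ∃ F : Set (Equiv.Perm X), #F < κ ∧ F ⊆ T ∧ ∀ x, ∃ g ∈ F, g x ∈ B

theorem Lg.mono {κ : Cardinal.{u}} {T : Subgroup (Equiv.Perm X)} {B C : Set X} (h : B ⊆ C)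
    (hB : Lg κ T B) : Lg κ T C := by
  obtain ⟨F, h1, h2, h3⟩ := hB
  refine ⟨F, h1, h2, fun x => ?_⟩
  obtain ⟨g, hg, hx⟩ := h3 x
  exact ⟨g, hg, h hx⟩

end Pool.Agent.Y364.KP
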