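import Pool.Agent.Y364.KP.Count

/-!
The theorem for families of semiregular groups, and the case of the two regular representations of
a group.
-/

open Cardinal Set Pointwise

namespace Pool.Agent.Y364.KP

open Pool.Agent.H492R3.KL (RankFn exists_rankFn KK mem_KK_of_lt)

universe u v

variable {X : Type u} {J : Type u} {S : J → Subgroup (Equiv.Perm X)}

theorem exists_rankX {G : Type u} [Group G] (h : #X = #G) : ∃ rX : X → Ordinal.{u}, RankX rX := by
  obtain ⟨rk, hrk⟩ := exists_rankFn (G := G)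
  obtain ⟨e⟩ := Cardinal.eq.mp h
  refine ⟨fun x => rk (e x), ⟨?_, ?_, ?_⟩⟩
  · intro a b h
    exact e.injective (hrk.inj h)
  · intro g
    rw [h]
    exact hrk.lt _
  · intro o ho
    rw [h] at ho
    rw [← hrk.card o ho]
    exact Cardinal.mk_congr (e.subtypeEquiv (fun a => Iff.rfl))

/-- The general theorem. -/
theorem main [Nonempty J] [Infinite X] (hJ : #J ≤ #X) (sr : ∀ j, SemiReg (S j))
    (hc : ∀ j, #(S j) = #X) (A : Set X) (hA : ∀ j, Lg #X (S j) A)
    (hL : ℵ₀ < #X → (∀ μ < #X, Order.succ μ < #X) →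
      ∃ ν < #X, #J ≤ ν ∧ ∀ j, Lg (Order.succ ν) (S j) A) :
    ∃ c : Set (Set X), c.PairwiseDisjoint id ∧ ⋃₀ c = A ∧ #c = #X ∧
      ∀ s ∈ c, s.Nonempty ∧ ∀ j, Lg #X (S j) s := by
  classical
  have h0 : ℵ₀ ≤ #X := Cardinal.infinite_iff.mp inferInstance
  obtain ⟨j0⟩ := (inferInstance : Nonempty J)
  obtain ⟨rX, hrX⟩ := exists_rankX (X := X) (G := S j0) (hc j0).symm
  rcases h0.lt_or_eq with h | h
  · by_cases hs : ∃ lam, #X = Order.succ lam
    · obtain ⟨lam, hlam⟩ := hs
      have hl : ℵ₀ ≤ lam := by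
        by_contra hcon
        rw [not_le] at hcon
        have h1 := Order.succ_le_of_lt hcon
        rw [← hlam] at h1
        exact absurd h (not_lt.mpr h1)
      have h1 : ∀ j, ∃ D : Set (S j), #D ≤ lam ∧
          ∀ x, lam ≤ #{y | y ∈ A ∧ ∃ g ∈ D, (g : Equiv.Perm X) x = y} := fun j =>
        exists_spread_set (sr j) hl ((hc j).trans hlam) (by rw [← hlam]; exact hA j)
      choose D hD1 hD2 using h1
      have h2 : ∀ j, ∃ rk : S j → Ordinal.{u}, RankFn rk ∧ ∀ g ∈ D j, rk g < lam.ord := fun j =>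
        exists_rankFn_first (by rw [hc j]; exact h0) (D j) (hD1 j)
          (by rw [hc j, hlam]; exact Order.lt_succ _)
      choose rk hrk1 hrk2 using h2
      have h3 : Nonempty (J ↪ X) := by rw [← Cardinal.le_def]; exact hJ
      obtain ⟨f⟩ := h3
      refine succ_case (rk := rk) (rJ := fun j => rX (f j)) hl hlam sr hc hrk1 hrX
        (fun j => hrX.lt _) ?_ A ?_
      · intro o ho
        have h4 : #{j // rX (f j) < o} ≤ #{x // rX x < o} :=
          Cardinal.mk_le_of_injective (f := fun j : {j // rX (f j) < o} =>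
            (⟨f j, j.2⟩ : {x // rX x < o})) (by
              intro a b hab
              exact Subtype.ext (f.injective (congrArg Subtype.val hab)))
        refine h4.trans ?_
        rw [hrX.card o ho.le]
        rw [Cardinal.lt_ord, hlam] at ho
        exact Order.lt_succ_iff.mp ho
      · intro j x
        refine (hD2 j x).trans (Cardinal.mk_le_mk_of_subset ?_)
        rintro y ⟨hy, g, hg, rfl⟩
        exact ⟨hy, g, hrk2 j g hg, rfl⟩
    · have hlim : ∀ μ < #X, Order.succ μ < #X := by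
        intro μ hμ
        rcases (Order.succ_le_of_lt hμ).lt_or_eq with h1 | h1
        · exact h1
        · exact absurd ⟨μ, h1.symm⟩ hs
      obtain ⟨ν, hν, hJν, hAν⟩ := hL h hlim
      have h1 : ∀ j, ∃ rk : S j → Ordinal.{u}, RankFn rk ∧
          ∀ x, ∃ g : S j, rk g < (max ℵ₀ ν).ord ∧ (g : Equiv.Perm X) x ∈ A := by
        intro j
        obtain ⟨F, hF, hFS, hFA⟩ := hAν j
        rw [Order.lt_succ_iff] at hF
        let F' : Set (S j) := {g | (g : Equiv.Perm X) ∈ F}
        have hF' : #F' ≤ max ℵ₀ ν := by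
          refine le_trans ?_ (hF.trans (le_max_right _ _))
          exact Cardinal.mk_le_of_injective (f := fun g : F' => (⟨(g : S j), g.2⟩ : F)) (by
            intro a b h
            have := congrArg Subtype.val h
            exact Subtype.ext (Subtype.ext this))
        obtain ⟨rk, hrk, hrk2⟩ := exists_rankFn_first (G := S j) (by rw [hc j]; exact h0) F' hF'
          (by rw [hc j]; exact max_lt h hν)
        refine ⟨rk, hrk, fun x => ?_⟩
        obtain ⟨g, hg, hgx⟩ := hFA x
        exact ⟨⟨g, hFS hg⟩, hrk2 _ hg, hgx⟩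
      choose rk hrk1 hrk2 using h1
      have C : Ctx S rk rX (max ℵ₀ ν) :=
        ⟨sr, hc, hrk1, hrX, le_max_left _ _, hJν.trans (le_max_right _ _)⟩
      refine C.limit_case (max_lt h hν) hlim A ?_
      intro j x
      obtain ⟨g, hg, hgx⟩ := hrk2 j x
      exact ⟨_, ⟨g, mem_RR_of_lt hg, rfl⟩, hgx⟩
  · have : Countable J := Cardinal.mk_le_aleph0_iff.mp (by rw [h]; exact hJ)
    exact countable_case h.symm sr hc A hA

variable {G : Type u} [Group G]

/-- `A` is left `κ`-large: `G = F A` for some set `F` of cardinality less than `κ`. -/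
def LeftLarge (κ : Cardinal.{u}) (A : Set G) : Prop := ∃ F : Set G, #F < κ ∧ F * A = Set.univ

/-- `A` is right `κ`-large: `G = A F` for some set `F` of cardinality less than `κ`. -/
def RightLarge (κ : Cardinal.{u}) (A : Set G) : Prop := ∃ F : Set G, #F < κ ∧ A * F = Set.univ

/-- `A` is `κ`-large: it is both left and right `κ`-large. -/
def IsLarge (κ : Cardinal.{u}) (A : Set G) : Prop := LeftLarge κ A ∧ RightLarge κ A

/-- right regular representation -/
def rightHom (G : Type u) [Group G] : G →* Equiv.Perm G where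
  toFun g := Equiv.mulRight g⁻¹
  map_one' := by ext x; simp
  map_mul' a b := by ext x; simp [mul_assoc]

/-- left regular representation -/
def leftHom (G : Type u) [Group G] : G →* Equiv.Perm G where
  toFun g := Equiv.mulLeft g
  map_one' := by ext x; simp
  map_mul' a b := by ext x; simp

/-- the two regular representations -/
def regs (G : Type u) [Group G] (b : ULift.{u} Bool) : Subgroup (Equiv.Perm G) :=
  if b.down then (leftHom G).range else (rightHom G).range

theorem left_iff {κ : Cardinal.{u}} {A : Set G} :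
    Lg κ (leftHom G).range A ↔ LeftLarge κ A := by
  constructor
  · rintro ⟨F, hF, hFT, hFA⟩
    refine ⟨{g | leftHom G g⁻¹ ∈ F}, lt_of_le_of_lt ?_ hF, ?_⟩
    · refine Cardinal.mk_le_of_injective (f := fun g : {g | leftHom G g⁻¹ ∈ F} =>
        (⟨leftHom G (g : G)⁻¹, g.2⟩ : F)) ?_
      intro a b h
      have h2 : (a : G)⁻¹ * 1 = (b : G)⁻¹ * 1 :=
        congrArg (fun p : F => (p : Equiv.Perm G) 1) h
      exact Subtype.ext (by simpa using h2)
    · rw [Set.eq_univ_iff_forall]
      intro x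
      obtain ⟨p, hp, hpx⟩ := hFA x
      obtain ⟨g, rfl⟩ := hFT hp
      refine ⟨g⁻¹, by simpa using hp, g * x, hpx, by simp⟩
  · rintro ⟨F, hF, hFA⟩
    refine ⟨(fun g => leftHom G g⁻¹) '' F, Cardinal.mk_image_le.trans_lt hF, ?_, ?_⟩
    · rintro _ ⟨g, _, rfl⟩
      exact ⟨_, rfl⟩
    · intro x
      obtain ⟨f, hf, a, ha, hx⟩ := (Set.eq_univ_iff_forall.mp hFA) x
      refine ⟨_, ⟨f, hf, rfl⟩, ?_⟩
      change f⁻¹ * x ∈ A
      rw [← hx]
      simpa using ha

theorem right_iff {κ : Cardinal.{u}} {A : Set G} :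
    Lg κ (rightHom G).range A ↔ RightLarge κ A := by
  constructor
  · rintro ⟨F, hF, hFT, hFA⟩
    refine ⟨{g | rightHom G g ∈ F}, lt_of_le_of_lt ?_ hF, ?_⟩
    · refine Cardinal.mk_le_of_injective (f := fun g : {g | rightHom G g ∈ F} =>
        (⟨rightHom G (g : G), g.2⟩ : F)) ?_
      intro a b h
      have h2 : 1 * (a : G)⁻¹ = 1 * (b : G)⁻¹ :=
        congrArg (fun p : F => (p : Equiv.Perm G) 1) h
      exact Subtype.ext (by simpa using h2)
    · rw [Set.eq_univ_iff_forall]
      intro x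
      obtain ⟨p, hp, hpx⟩ := hFA x
      obtain ⟨g, rfl⟩ := hFT hp
      refine ⟨x * g⁻¹, hpx, g, hp, by simp⟩
  · rintro ⟨F, hF, hFA⟩
    refine ⟨(fun g => rightHom G g) '' F, Cardinal.mk_image_le.trans_lt hF, ?_, ?_⟩
    · rintro _ ⟨g, _, rfl⟩
      exact ⟨_, rfl⟩
    · intro x
      obtain ⟨a, ha, f, hf, hx⟩ := (Set.eq_univ_iff_forall.mp hFA) x
      refine ⟨_, ⟨f, hf, rfl⟩, ?_⟩
      change x * f⁻¹ ∈ A
      rw [← hx]
      simpa using ha

theorem large_iff {κ : Cardinal.{u}} {A : Set G} :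
    (∀ b, Lg κ (regs G b) A) ↔ IsLarge κ A := by
  constructor
  · intro h
    exact ⟨left_iff.mp (by simpa [regs] using h ⟨true⟩), right_iff.mp (by simpa [regs] using h ⟨false⟩)⟩
  · rintro ⟨h1, h2⟩ ⟨b⟩
    cases b
    · simpa [regs] using right_iff.mpr h2
    · simpa [regs] using left_iff.mpr h1

theorem regs_semiReg (b : ULift.{u} Bool) : SemiReg (regs G b) := by
  obtain ⟨b⟩ := b
  cases b
  · intro p hp x hx
    simp only [regs] at hp
    obtain ⟨g, rfl⟩ := hp
    have h1 : x * g⁻¹ = x := hx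
    have h2 : g = 1 := by simpa using h1
    rw [h2, map_one]
  · intro p hp x hx
    simp only [regs, if_true] at hp
    obtain ⟨g, rfl⟩ := hp
    have h1 : g * x = x := hx
    have h2 : g = 1 := by simpa using h1
    rw [h2, map_one]

theorem leftHom_inj : Function.Injective (leftHom G) := by
  intro a b h
  have h1 : a * 1 = b * 1 := congrArg (fun p : Equiv.Perm G => p 1) h
  simpa using h1

theorem rightHom_inj : Function.Injective (rightHom G) := by
  intro a b h
  have h1 : 1 * a⁻¹ = 1 * b⁻¹ := congrArg (fun p : Equiv.Perm G => p 1) h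
  simpa using h1

theorem mk_regs (b : ULift.{u} Bool) : #(regs G b) = #G := by
  obtain ⟨b⟩ := b
  cases b
  · simp only [regs]
    exact (Cardinal.mk_congr (MonoidHom.ofInjective rightHom_inj).toEquiv).symm
  · simp only [regs, if_true]
    exact (Cardinal.mk_congr (MonoidHom.ofInjective leftHom_inj).toEquiv).symm

theorem group_case [Infinite G] (A : Set G) (hA : IsLarge #G A) :
    ∃ c : Set (Set G), c.PairwiseDisjoint id ∧ ⋃₀ c = A ∧ #c = #G ∧
      ∀ s ∈ c, s.Nonempty ∧ IsLarge #G s := by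
  have h0 : ℵ₀ ≤ #G := Cardinal.infinite_iff.mp inferInstance
  have h2 : ∀ b, Lg #G (regs G b) A := large_iff.mpr hA
  obtain ⟨c, h3, h4, h5, h6⟩ := main (S := regs G) (J := ULift.{u} Bool)
    ((Cardinal.mk_le_aleph0).trans h0) regs_semiReg mk_regs A h2 (by
      intro hlt hlim
      obtain ⟨F1, hF1, hF1', hF1''⟩ := h2 ⟨true⟩
      obtain ⟨F2, hF2, hF2', hF2''⟩ := h2 ⟨false⟩
      refine ⟨max ℵ₀ (max #F1 #F2), max_lt hlt (max_lt hF1 hF2),
        (Cardinal.mk_le_aleph0).trans (le_max_left _ _), ?_⟩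
      rintro ⟨b⟩
      cases b
      · exact ⟨F2, Order.lt_succ_iff.mpr ((le_max_right _ _).trans (le_max_right _ _)), hF2', hF2''⟩
      · exact ⟨F1, Order.lt_succ_iff.mpr ((le_max_left _ _).trans (le_max_right _ _)), hF1', hF1''⟩)
  exact ⟨c, h3, h4, h5, fun s hs => ⟨(h6 s hs).1, large_iff.mp (h6 s hs).2⟩⟩

end Pool.Agent.Y364.KP
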