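import Pool.Agent.Y364.KP.Limit

/-!
The case of a successor cardinal.
-/

open Cardinal Set

namespace Pool.Agent.Y364.KP

open Pool.Agent.H492R3.KL (RankFn exists_rankFn KK KK_mono mem_KK_of_lt mk_KK_le le_mk_KK
  exists_lt_mem_KK exists_sdr exists_sdr_comp mk_closure_le)

universe u v

variable {X : Type u} {J : Type u} {S : J → Subgroup (Equiv.Perm X)}
  {rk : ∀ j, S j → Ordinal.{u}} {rX : X → Ordinal.{u}} {rJ : J → Ordinal.{u}}

/-- equality of two values forces equality in a semiregular group -/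
theorem SemiReg.eq_of {T : Subgroup (Equiv.Perm X)} (hT : SemiReg T) {g h : Equiv.Perm X}
    (hg : g ∈ T) (hh : h ∈ T) {x : X} (e : g x = h x) : g = h := by
  have h2 : (h⁻¹ * g) x = x := by
    change h⁻¹ (g x) = x
    rw [e]; simp
  exact (inv_mul_eq_one.mp (hT _ (T.mul_mem (T.inv_mem hh) hg) x h2)).symm

theorem exists_spread_set {T : Subgroup (Equiv.Perm X)} (hT : SemiReg T) {lam : Cardinal.{u}}
    (hlam : ℵ₀ ≤ lam) (hc : #T = Order.succ lam) {A : Set X} (hA : Lg (Order.succ lam) T A) :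
    ∃ D : Set T, #D ≤ lam ∧ ∀ x, lam ≤ #{y | y ∈ A ∧ ∃ g ∈ D, (g : Equiv.Perm X) x = y} := by
  obtain ⟨F, hF, hFT, hFA⟩ := hA
  rw [Order.lt_succ_iff] at hF
  let F' : Set T := {g | (g : Equiv.Perm X) ∈ F}
  have hF' : #F' ≤ lam := by
    refine le_trans ?_ hF
    exact Cardinal.mk_le_of_injective (f := fun g : F' => (⟨(g : T), g.2⟩ : F)) (by
      intro a b h
      have := congrArg Subtype.val h
      exact Subtype.ext (Subtype.ext this))
  let K : Subgroup T := Subgroup.closure F'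
  have hK : #K ≤ lam := (mk_closure_le _).trans (max_le hF' hlam)
  have hQ : lam ≤ #(T ⧸ K) := by
    by_contra hcon
    rw [not_le] at hcon
    have h1 : #T = #(T ⧸ K) * #K := by
      rw [Cardinal.mk_congr (Subgroup.groupEquivQuotientProdSubgroup (s := K))]
      simp
    have h2 : #T ≤ lam := by
      rw [h1]
      exact Cardinal.mul_le_of_le hlam hcon.le hK
    rw [hc] at h2
    exact absurd h2 (not_le.mpr (Order.lt_succ lam))
  obtain ⟨Q, hQ⟩ := Cardinal.le_mk_iff_exists_set.mp hQ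
  let D : Set T := Set.range (fun p : K × Q => (p.1 : T) * (p.2 : T ⧸ K).out⁻¹)
  refine ⟨D, ?_, ?_⟩
  · refine Cardinal.mk_range_le.trans ?_
    rw [Cardinal.mk_prod, Cardinal.lift_id, Cardinal.lift_id]
    exact Cardinal.mul_le_of_le hlam hK hQ.le
  · intro x
    have h1 : ∀ q : Q, ∃ f : K, (((f : T) * (q : T ⧸ K).out⁻¹ : T) : Equiv.Perm X) x ∈ A := by
      intro q
      obtain ⟨f, hf, hfA⟩ := hFA ((((q : T ⧸ K).out⁻¹ : T) : Equiv.Perm X) x)
      exact ⟨⟨⟨f, hFT hf⟩, Subgroup.subset_closure hf⟩, hfA⟩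
    choose f hf using h1
    rw [← hQ]
    refine Cardinal.mk_le_of_injective (f := fun q : Q =>
      (⟨(((f q : T) * (q : T ⧸ K).out⁻¹ : T) : Equiv.Perm X) x, hf q, _, ⟨(f q, q), rfl⟩, rfl⟩ :
        {y | y ∈ A ∧ ∃ g ∈ D, (g : Equiv.Perm X) x = y})) ?_
    intro q q' h
    have h2 : (((f q : T) * (q : T ⧸ K).out⁻¹ : T) : Equiv.Perm X) x =
        (((f q' : T) * (q' : T ⧸ K).out⁻¹ : T) : Equiv.Perm X) x := congrArg Subtype.val h
    have h3 := hT.eq_of (Subtype.property _) (Subtype.property _) h2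
    have h4 : (f q : T) * (q : T ⧸ K).out⁻¹ = (f q' : T) * (q' : T ⧸ K).out⁻¹ := Subtype.ext h3
    have h5 : (q : T ⧸ K).out⁻¹ * (q' : T ⧸ K).out = (f q : T)⁻¹ * (f q' : T) := by
      have : (q : T ⧸ K).out⁻¹ = (f q : T)⁻¹ * ((f q' : T) * (q' : T ⧸ K).out⁻¹) := by
        rw [← h4]; group
      rw [this]; group
    have h6 : (QuotientGroup.mk (q : T ⧸ K).out : T ⧸ K) = QuotientGroup.mk (q' : T ⧸ K).out := by
      rw [QuotientGroup.eq, h5]
      exact K.mul_mem (K.inv_mem (f q).2) (f q').2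
    rw [QuotientGroup.out_eq', QuotientGroup.out_eq'] at h6
    exact Subtype.ext h6

/-- group generated by the `o`-th groups of the first `o` families -/
def QQ (S : J → Subgroup (Equiv.Perm X)) (rk : ∀ j, S j → Ordinal.{u}) (rJ : J → Ordinal.{u})
    (o : Ordinal.{u}) : Subgroup (Equiv.Perm X) := ⨆ j : {j // rJ j < o}, RR S rk j o

theorem RR_le_QQ {j : J} {o : Ordinal.{u}} (h : rJ j < o) : RR S rk j o ≤ QQ S rk rJ o :=
  le_iSup (fun j : {j // rJ j < o} => RR S rk (j : J) o) ⟨j, h⟩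

theorem QQ_mono {o o' : Ordinal.{u}} (h : o ≤ o') : QQ S rk rJ o ≤ QQ S rk rJ o' :=
  iSup_le fun j => (RR_mono h).trans (RR_le_QQ (j.2.trans_le h))

/-- the points reached at stage `o` -/
def XX (S : J → Subgroup (Equiv.Perm X)) (rk : ∀ j, S j → Ordinal.{u}) (rJ : J → Ordinal.{u})
    (rX : X → Ordinal.{u}) (o : Ordinal.{u}) : Set X :=
  {y | ∃ x, rX x < o ∧ y ∈ Orb (QQ S rk rJ o) x}

theorem XX_mono {o o' : Ordinal.{u}} (h : o ≤ o') : XX S rk rJ rX o ⊆ XX S rk rJ rX o' := by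
  rintro y ⟨x, hx, hy⟩
  exact ⟨x, hx.trans_le h, Orb_mono (QQ_mono h) _ hy⟩

theorem mem_XX_iff {o : Ordinal.{u}} {p : Equiv.Perm X} (hp : p ∈ QQ S rk rJ o) (y : X) :
    p y ∈ XX S rk rJ rX o ↔ y ∈ XX S rk rJ rX o := by
  constructor
  · rintro ⟨x, hx, hy⟩
    exact ⟨x, hx, Orb_trans hy ⟨p⁻¹, Subgroup.inv_mem _ hp, by simp⟩⟩
  · rintro ⟨x, hx, hy⟩
    exact ⟨x, hx, Orb_trans hy ⟨p, hp, rfl⟩⟩

/-- the level of a point -/
noncomputable def lev (S : J → Subgroup (Equiv.Perm X)) (rk : ∀ j, S j → Ordinal.{u})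
    (rJ : J → Ordinal.{u}) (rX : X → Ordinal.{u}) (y : X) : Ordinal.{u} :=
  sInf {o | y ∈ XX S rk rJ rX o}

theorem mem_XX_succ (y : X) : y ∈ XX S rk rJ rX (Order.succ (rX y)) :=
  ⟨y, Order.lt_succ _, Orb_self _ _⟩

theorem mem_XX_lev (y : X) : y ∈ XX S rk rJ rX (lev S rk rJ rX y) :=
  csInf_mem (s := {o | y ∈ XX S rk rJ rX o}) ⟨_, mem_XX_succ y⟩

theorem mem_XX_iff_lev {y : X} {o : Ordinal.{u}} :
    y ∈ XX S rk rJ rX o ↔ lev S rk rJ rX y ≤ o :=
  ⟨fun h => csInf_le' h, fun h => XX_mono h (mem_XX_lev y)⟩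

theorem lev_eq {y z : X} {o : Ordinal.{u}} (hg : o < lev S rk rJ rX y)
    (hz : z ∈ Orb (QQ S rk rJ o) y) : lev S rk rJ rX z = lev S rk rJ rX y := by
  obtain ⟨p, hp, rfl⟩ := hz
  have key : ∀ q : Ordinal.{u}, o ≤ q → (lev S rk rJ rX (p y) ≤ q ↔ lev S rk rJ rX y ≤ q) := by
    intro q hq
    rw [← mem_XX_iff_lev, ← mem_XX_iff_lev]
    exact mem_XX_iff (QQ_mono hq hp) y
  apply le_antisymm
  · exact (key _ hg.le).mpr le_rfl
  · rcases le_total o (lev S rk rJ rX (p y)) with h | h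
    · exact (key _ h).mp le_rfl
    · exact absurd ((key o le_rfl).mp h) (not_le.mpr hg)

/-- Successor case. -/
theorem succ_case [Nonempty J] [Nonempty X] {lam : Cardinal.{u}} (hlam : ℵ₀ ≤ lam)
    (hX : #X = Order.succ lam) (sr : ∀ j, SemiReg (S j)) (hc : ∀ j, #(S j) = #X)
    (hrk : ∀ j, RankFn (rk j)) (hrX : RankX rX) (hrJ1 : ∀ j, rJ j < (#X).ord)
    (hrJ2 : ∀ o, o < (#X).ord → #{j // rJ j < o} ≤ lam) (A : Set X)
    (hA : ∀ j x, lam ≤ #{y | y ∈ A ∧ ∃ g, rk j g < lam.ord ∧ (g : Equiv.Perm X) x = y}) :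
    ∃ c : Set (Set X), c.PairwiseDisjoint id ∧ ⋃₀ c = A ∧ #c = #X ∧
      ∀ s ∈ c, s.Nonempty ∧ ∀ j, Lg #X (S j) s := by
  classical
  have hXinf : ℵ₀ ≤ #X := by rw [hX]; exact hlam.trans (Order.le_succ _)
  have hsl := Cardinal.isSuccLimit_ord hXinf
  have hcardlt : ∀ o : Ordinal.{u}, o < (#X).ord → o.card ≤ lam := by
    intro o ho
    rw [Cardinal.lt_ord, hX] at ho
    exact Order.lt_succ_iff.mp ho
  have hRle : ∀ j, ∀ o : Ordinal.{u}, o < (#X).ord → #(RR S rk j o) ≤ lam := by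
    intro j o ho
    rw [mk_RR]
    refine (mk_KK_le (hrk j) (by rw [hc j]; exact ho.le)).trans (max_le (hcardlt o ho) hlam)
  have hQle : ∀ o : Ordinal.{u}, o < (#X).ord → #(QQ S rk rJ o) ≤ lam := by
    intro o ho
    unfold QQ
    rw [Subgroup.iSup_eq_closure]
    refine (mk_closure_le _).trans (max_le ?_ hlam)
    refine (Cardinal.mk_iUnion_le _).trans (Cardinal.mul_le_of_le hlam (hrJ2 o ho) (ciSup_le' ?_))
    intro j
    exact hRle j o ho
  have hXXle : ∀ o : Ordinal.{u}, o < (#X).ord → #(XX S rk rJ rX o) ≤ lam := by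
    intro o ho
    have hsub : XX S rk rJ rX o ⊆ ⋃ x : {x // rX x < o}, Orb (QQ S rk rJ o) (x : X) := by
      rintro y ⟨x, hx, hy⟩
      exact Set.mem_iUnion.mpr ⟨⟨x, hx⟩, hy⟩
    refine (Cardinal.mk_le_mk_of_subset hsub).trans ((Cardinal.mk_iUnion_le _).trans ?_)
    refine Cardinal.mul_le_of_le hlam ?_ (ciSup_le' fun x => (mk_Orb_le _ _).trans (hQle o ho))
    rw [hrX.card o ho.le]
    exact hcardlt o ho
  have hlevlt : ∀ y, lev S rk rJ rX y < (#X).ord := by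
    intro y
    refine lt_of_le_of_lt (mem_XX_iff_lev.mp (mem_XX_succ y)) ?_
    exact hsl.succ_lt (hrX.lt y)
  let β : X → J → Ordinal.{u} := fun ξ j => max (max lam.ord (rX ξ)) (Order.succ (rJ j))
  have hβlt : ∀ ξ j, β ξ j < (#X).ord := by
    intro ξ j
    refine max_lt (max_lt ?_ (hrX.lt ξ)) (hsl.succ_lt (hrJ1 j))
    rw [Cardinal.ord_lt_ord, hX]
    exact Order.lt_succ _
  have hβJ : ∀ ξ j, rJ j < β ξ j := fun ξ j =>
    lt_of_lt_of_le (Order.lt_succ _) (le_max_right _ _)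
  let ι := {p : X × X × J // β p.1 p.2.2 < lev S rk rJ rX p.2.1}
  obtain ⟨x, hx1, hx2⟩ := exists_sdr_comp (ι := ι) (Y := X) (μ := lam)
    (fun i => lev S rk rJ rX i.1.2.1) (by
    intro z
    by_cases hz : z < (#X).ord
    · have hf : ∀ i : {i : ι // lev S rk rJ rX i.1.2.1 = z}, rX i.1.1.1 < z ∧
          i.1.1.2.1 ∈ XX S rk rJ rX z ∧ rJ i.1.1.2.2 < z := by
        rintro ⟨⟨⟨ξ, g, s⟩, h⟩, hi⟩
        simp only at h hi ⊢
        refine ⟨?_, ?_, ?_⟩
        · rw [← hi]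
          exact lt_of_le_of_lt ((le_max_right _ _).trans (le_max_left _ _)) h
        · rw [mem_XX_iff_lev, hi]
        · rw [← hi]
          exact (hβJ ξ s).trans h
      let F : {i : ι // lev S rk rJ rX i.1.2.1 = z} →
          {g // rX g < z} × (XX S rk rJ rX z) × {j // rJ j < z} :=
        fun i => (⟨i.1.1.1, (hf i).1⟩, ⟨i.1.1.2.1, (hf i).2.1⟩, ⟨i.1.1.2.2, (hf i).2.2⟩)
      have hF : Function.Injective F := by
        rintro ⟨⟨⟨ξ, g, s⟩, h⟩, hi⟩ ⟨⟨⟨ξ', g', s'⟩, h'⟩, hi'⟩ heq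
        simp only [F, Prod.mk.injEq, Subtype.mk.injEq] at heq
        obtain ⟨h1, h2, h3⟩ := heq
        subst h1; subst h2; subst h3
        rfl
      refine (Cardinal.mk_le_of_injective hF).trans ?_
      rw [Cardinal.mk_prod, Cardinal.mk_prod, Cardinal.lift_id, Cardinal.lift_id, Cardinal.lift_id,
        Cardinal.lift_id]
      refine Cardinal.mul_le_of_le hlam ?_ ?_
      · rw [hrX.card z hz.le]
        exact hcardlt z hz
      · exact Cardinal.mul_le_of_le hlam (hXXle z hz) (hrJ2 z hz)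
    · have : IsEmpty {i : ι // lev S rk rJ rX i.1.2.1 = z} := by
        refine ⟨fun i => hz ?_⟩
        rw [← i.2]
        exact hlevlt _
      rw [Cardinal.mk_eq_zero]
      exact zero_le)
    (fun i => Orb (RR S rk i.1.2.2 (β i.1.1 i.1.2.2)) i.1.2.1 ∩ A)
    (by
      rintro ⟨⟨ξ, x, j⟩, h⟩
      refine (hA j x).trans (Cardinal.mk_le_mk_of_subset ?_)
      rintro y ⟨hy, g, hg, rfl⟩
      refine ⟨⟨g, mem_RR_of_lt (hg.trans_le ?_), rfl⟩, hy⟩
      exact (le_max_left _ _).trans (le_max_left _ _))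
    (by
      intro i j y hi hj
      have e1 := lev_eq i.2 (Orb_mono (RR_le_QQ (hβJ _ _)) _ hi.1)
      have e2 := lev_eq j.2 (Orb_mono (RR_le_QQ (hβJ _ _)) _ hj.1)
      exact e1.symm.trans e2)
  let B : X → Set X := fun ξ => {y | ∃ i : ι, i.1.1 = ξ ∧ x i = y}
  have hit : ∀ ξ j y, β ξ j < lev S rk rJ rX y → ∃ g ∈ RR S rk j (β ξ j), g y ∈ B ξ := by
    intro ξ j y h
    obtain ⟨⟨g, hg, hgy⟩, _⟩ := hx2 ⟨(ξ, y, j), h⟩
    exact ⟨g, hg, ⟨⟨(ξ, y, j), h⟩, rfl, hgy.symm⟩⟩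
  have hmove : ∀ ξ j y, ∃ γ ∈ S j, β ξ j < lev S rk rJ rX (γ y) := by
    intro ξ j y
    by_contra hcon
    push Not at hcon
    have h1 : #(S j) ≤ lam := by
      refine le_trans ?_ (hXXle _ (hβlt ξ j))
      refine Cardinal.mk_le_of_injective (f := fun γ : S j => (⟨(γ : Equiv.Perm X) y,
        mem_XX_iff_lev.mpr (hcon γ γ.2)⟩ : XX S rk rJ rX (β ξ j))) ?_
      intro a b h
      exact Subtype.ext ((sr j).eq_of a.2 b.2 (congrArg Subtype.val h))
    rw [hc j, hX] at h1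
    exact absurd h1 (not_le.mpr (Order.lt_succ lam))
  have hlarge : ∀ ξ, (B ξ).Nonempty ∧ ∀ j, Lg #X (S j) (B ξ) := by
    intro ξ
    constructor
    · obtain ⟨j⟩ := (inferInstance : Nonempty J)
      obtain ⟨y⟩ := (inferInstance : Nonempty X)
      obtain ⟨γ, _, h⟩ := hmove ξ j y
      obtain ⟨g, _, hg⟩ := hit ξ j _ h
      exact ⟨_, hg⟩
    · intro j
      choose γ hγ1 hγ2 using hmove ξ j
      let R : Set (Equiv.Perm X) := (RR S rk j (β ξ j) : Set (Equiv.Perm X))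
      have hR : #R ≤ lam := hRle j _ (hβlt ξ j)
      let F : Set (Equiv.Perm X) := R ∪
        Set.range (fun p : R × XX S rk rJ rX (β ξ j) => (p.1 : Equiv.Perm X) * γ p.2)
      refine ⟨F, ?_, ?_, ?_⟩
      · have h1 : #F ≤ lam := by
          refine (Cardinal.mk_union_le _ _).trans (Cardinal.add_le_of_le hlam hR ?_)
          refine Cardinal.mk_range_le.trans ?_
          rw [Cardinal.mk_prod, Cardinal.lift_id, Cardinal.lift_id]
          exact Cardinal.mul_le_of_le hlam hR (hXXle _ (hβlt ξ j))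
        rw [hX]
        exact h1.trans_lt (Order.lt_succ _)
      · rintro p (hp | ⟨⟨⟨r, hr⟩, y⟩, rfl⟩)
        · exact RR_le_S j _ hp
        · exact (S j).mul_mem (RR_le_S j _ hr) (hγ1 _)
      · intro y
        by_cases h : β ξ j < lev S rk rJ rX y
        · obtain ⟨g, hg, hgy⟩ := hit ξ j y h
          exact ⟨g, Or.inl hg, hgy⟩
        · rw [not_lt] at h
          obtain ⟨g, hg, hgy⟩ := hit ξ j _ (hγ2 y)
          exact ⟨g * γ y, Or.inr ⟨(⟨g, hg⟩, ⟨y, mem_XX_iff_lev.mpr h⟩), rfl⟩, hgy⟩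
  refine exists_partition_of_family A B ?_ ?_ (fun i => (hlarge i).1)
    (fun s => ∀ j, Lg #X (S j) s) (fun s t hst h j => (h j).mono hst) (fun i => (hlarge i).2)
  · rintro ξ y ⟨i, _, rfl⟩
    exact (hx2 i).2
  intro ξ ξ' hne
  rw [Set.disjoint_left]
  rintro y ⟨i, hi, hiy⟩ ⟨j, hj, hjy⟩
  have : i = j := hx1 (hiy.trans hjy.symm)
  exact hne (by rw [← hi, ← hj, this])

end Pool.Agent.Y364.KP
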